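import Mathlib
import Pool.Agent.Helper23.LC.Final

/-!
# Long cycles in random subgraphs of graphs with given average degree

If every `G k` has average degree at least `k` and `k * p k` tends to infinity, then asymptotically
almost surely the random subgraph of `G k` with edge probability `p k` has a cycle of length at
least `(1 - o(1)) k`.
-/

open Finset Filter Topology

namespace Pool.Agent.Results.MP_816dee_pr.AverageDegree

open Pool.Agent.Helper23.LC

universe u

/-- The average degree `2 |E| / |V|`. -/
noncomputable def avgDegree {V : Type u} [Fintype V] (G : SimpleGraph V) : ℝ :=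
  2 * (G.edgeSet.ncard : ℝ) / Fintype.card V

open Classical in
/-- The probability that the random spanning subgraph `G_p`, which keeps every edge of `G`
independently with probability `p`, has the property `A`: the sum over all sets `S` of edges of `G`
such that the graph with edge set `S` has the property. -/
noncomputable def prob {V : Type u} [Fintype V] (G : SimpleGraph V) (p : ℝ)
    (A : SimpleGraph V → Prop) : ℝ :=
  ∑ S ∈ G.edgeFinset.powerset.filter
      (fun S : Finset (Sym2 V) => A (SimpleGraph.fromEdgeSet (S : Set (Sym2 V)))),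
    p ^ S.card * (1 - p) ^ (G.edgeFinset.card - S.card)

/-- `H` has a cycle of length at least `l`. -/
def HasCycleOfLengthAtLeast {V : Type u} (l : ℝ) (H : SimpleGraph V) : Prop :=
  ∃ (v : V) (c : H.Walk v v), c.IsCycle ∧ l ≤ c.length

theorem prob_add {V : Type u} [Fintype V] [DecidableEq V] (G : SimpleGraph V)
    [DecidableRel G.Adj] (p l : ℝ) :
    prob G p (HasCycleOfLengthAtLeast l) + EE G.edgeFinset p (noCyc l) = 1 := by
  classical
  have h1 : prob G p (HasCycleOfLengthAtLeast l) =
      EE G.edgeFinset p (fun S => if Cyc l S then 1 else 0) := by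
    have key : ∀ E E' : Finset (Sym2 V), E = E' →
        ∑ S ∈ E.powerset.filter (fun S : Finset (Sym2 V) =>
          HasCycleOfLengthAtLeast l (SimpleGraph.fromEdgeSet (S : Set (Sym2 V)))),
          p ^ S.card * (1 - p) ^ (E.card - S.card) =
        EE E' p (fun S => if Cyc l S then 1 else 0) := by
      rintro E E' rfl
      unfold EE
      rw [Finset.sum_filter]
      apply Finset.sum_congr rfl
      intro S _
      beta_reduce
      by_cases h : HasCycleOfLengthAtLeast l (SimpleGraph.fromEdgeSet (S : Set (Sym2 V)))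
      · have h' : Cyc l S := h
        rw [if_pos h, if_pos h', mul_one]
      · have h' : ¬ Cyc l S := h
        rw [if_neg h, if_neg h', mul_zero]
    unfold prob
    apply key
    have hmem : ∀ (i : Fintype G.edgeSet) (e : Sym2 V),
        e ∈ @SimpleGraph.edgeFinset V G i ↔ e ∈ G.edgeSet := by
      intro i e
      exact @Set.mem_toFinset _ _ i e
    ext e
    exact (hmem _ e).trans (hmem _ e).symm
  rw [h1, ← EE_add]
  have h2 : (fun S : Finset (Sym2 V) => (if Cyc l S then (1 : ℝ) else 0) + noCyc l S) =
      fun _ => 1 := by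
    funext S
    unfold noCyc
    split_ifs <;> simp
  rw [h2, EE_const]

theorem prob_le_one {V : Type u} [Fintype V] (G : SimpleGraph V) (p l : ℝ) (hp0 : 0 ≤ p)
    (hp1 : p ≤ 1) : prob G p (HasCycleOfLengthAtLeast l) ≤ 1 := by
  classical
  have h1 := prob_add G p l
  have h2 : 0 ≤ EE G.edgeFinset p (noCyc l) := by
    apply EE_nonneg _ _ hp0 hp1
    intro S _
    unfold noCyc
    split_ifs <;> simp
  linarith

/-- Uniform version. -/
theorem uniform (ε : ℝ) (hε : 0 < ε) :
    ∃ W : ℝ, ∀ (V : Type u) [Fintype V] (G : SimpleGraph V) (k : ℕ) (p : ℝ),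
      0 ≤ p → p ≤ 1 → W ≤ p * k → (k : ℝ) ≤ avgDegree G →
      1 - ε ≤ prob G p (HasCycleOfLengthAtLeast ((1 - ε) * k)) := by
  classical
  obtain ⟨W, hW, h⟩ := uniform_half.{u} (min ε (1 / 2)) (by positivity) (min_le_right _ _)
  refine ⟨W, ?_⟩
  intro V _ G k p hp0 hp1 hWk hk
  have hkpos : 0 < k := by
    rcases Nat.eq_zero_or_pos k with h0 | h0
    · subst h0
      simp at hWk
      linarith
    · exact h0
  have hkr : (0 : ℝ) < k := by exact_mod_cast hkpos
  have hVpos : 0 < Fintype.card V := by
    rcases Nat.eq_zero_or_pos (Fintype.card V) with h0 | h0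
    · unfold avgDegree at hk
      rw [h0] at hk
      simp at hk
      omega
    · exact h0
  have hVr : (0 : ℝ) < Fintype.card V := by exact_mod_cast hVpos
  have : Nonempty V := Fintype.card_pos_iff.1 hVpos
  have hE : (k : ℝ) * Fintype.card V ≤ 2 * #G.edgeFinset := by
    unfold avgDegree at hk
    rw [le_div_iff₀ hVr] at hk
    have h2 : G.edgeSet.ncard = #G.edgeFinset := by
      rw [← SimpleGraph.coe_edgeFinset, Set.ncard_coe_finset]
    rw [h2] at hk
    exact hk
  have h1 := h V G k p hp0 hp1 hWk hE
  have h2 := prob_add G p ((1 - ε) * k)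
  have h3 : EE G.edgeFinset p (noCyc ((1 - ε) * k)) ≤
      EE G.edgeFinset p (noCyc ((1 - min ε (1 / 2)) * k)) := by
    apply EE_mono _ _ hp0 hp1
    intro S _
    unfold noCyc
    by_cases hc : Cyc ((1 - min ε (1 / 2)) * k) S
    · have hc' : Cyc ((1 - ε) * k) S := by
        apply hc.mono_len
        have := min_le_left ε (1 / 2)
        gcongr
      rw [if_pos hc, if_pos hc']
    · rw [if_neg hc]
      split_ifs <;> simp
  have h4 := min_le_left ε (1 / 2)
  linarith

/-- **Theorem** (positive answer to Q1).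
(1) For every `ε > 0` there is `W` such that for all finite graphs `G` of average degree at least
`k` and all `p` in `[0, 1]` with `p k ≥ W`, the random subgraph `G_p` has a cycle of length at least
`(1 - ε) k` with probability at least `1 - ε`.
(2) Consequently, for every `ω` tending to infinity there is a function `e` tending to `0` such
that, for all sequences of finite graphs `G k` of average degree at least `k` and all
probabilities `p k ≥ ω k / k`, the probability that the random subgraph of `G k` has a cycle of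
length at least `(1 - e k) k` tends to `1`. -/
theorem result :
    (∀ ε : ℝ, 0 < ε → ∃ W : ℝ, ∀ (V : Type u) [Fintype V] (G : SimpleGraph V) (k : ℕ) (p : ℝ),
      0 ≤ p → p ≤ 1 → W ≤ p * k → (k : ℝ) ≤ avgDegree G →
      1 - ε ≤ prob G p (HasCycleOfLengthAtLeast ((1 - ε) * k))) ∧
    (∀ ω : ℕ → ℝ, Tendsto ω atTop atTop → ∃ e : ℕ → ℝ, Tendsto e atTop (𝓝 0) ∧
      ∀ (V : ℕ → Type u) [∀ k, Fintype (V k)] (G : ∀ k, SimpleGraph (V k)) (p : ℕ → ℝ),
        (∀ k, 0 ≤ p k ∧ p k ≤ 1) → (∀ k, 1 ≤ k → ω k / k ≤ p k) →
        (∀ k : ℕ, (k : ℝ) ≤ avgDegree (G k)) →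
        Tendsto (fun k : ℕ => prob (G k) (p k) (HasCycleOfLengthAtLeast ((1 - e k) * k)))
          atTop (𝓝 1)) := by
  refine ⟨fun ε hε => uniform ε hε, ?_⟩
  intro ω hω
  classical
  have hex : ∀ j : ℕ, ∃ W : ℝ, ∀ (V : Type u) [Fintype V] (G : SimpleGraph V) (k : ℕ) (p : ℝ),
      0 ≤ p → p ≤ 1 → W ≤ p * k → (k : ℝ) ≤ avgDegree G →
      1 - 1 / ((j : ℝ) + 1) ≤ prob G p (HasCycleOfLengthAtLeast ((1 - 1 / ((j : ℝ) + 1)) * k)) :=
    fun j => uniform _ (by positivity)
  choose W hW using hex
  let J : ℕ → ℕ := fun k => Nat.findGreatest (fun j => W j ≤ ω k) k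
  have hJ : Tendsto J atTop atTop := by
    rw [tendsto_atTop]
    intro b
    filter_upwards [eventually_ge_atTop b, hω.eventually_ge_atTop (W b)] with k hk1 hk2
    exact Nat.le_findGreatest hk1 hk2
  have hJW : ∀ᶠ k in atTop, W (J k) ≤ ω k := by
    filter_upwards [hω.eventually_ge_atTop (W 0)] with k hk
    exact Nat.findGreatest_spec (P := fun j => W j ≤ ω k) (Nat.zero_le k) hk
  have he : Tendsto (fun k => 1 / ((J k : ℝ) + 1)) atTop (𝓝 0) :=
    tendsto_one_div_add_atTop_nhds_zero_nat.comp hJ
  refine ⟨fun k => 1 / ((J k : ℝ) + 1), he, ?_⟩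
  intro V _ G p hp hωp hG
  have hlow : Tendsto (fun k : ℕ => 1 - 1 / ((J k : ℝ) + 1)) atTop (𝓝 1) := by
    have := tendsto_const_nhds (x := (1 : ℝ)).sub he
    simpa using this
  refine tendsto_of_tendsto_of_tendsto_of_le_of_le' hlow tendsto_const_nhds ?_ ?_
  · filter_upwards [hJW, eventually_ge_atTop 1] with k hk hk1
    apply hW (J k) (V k) (G k) k (p k) (hp k).1 (hp k).2 _ (hG k)
    have hkr : (0 : ℝ) < k := by exact_mod_cast hk1
    have h1 := hωp k hk1
    rw [div_le_iff₀ hkr] at h1
    exact hk.trans h1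
  · exact Eventually.of_forall fun k => prob_le_one _ _ _ (hp k).1 (hp k).2

end Pool.Agent.Results.MP_816dee_pr.AverageDegree
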